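import Mathlib

/-!
# A Legendre-Fenchel fixed-point equation: uniqueness fails for all parameters but the known ones
-/

set_option autoImplicit false

open scoped InnerProductSpace

namespace Pool.Agent.Results.MP_02ff8d_an.NonUniqueness

/-- The Legendre-Fenchel conjugate of `f : X → [-∞, ∞]`. -/
noncomputable def conj {X : Type*} [NormedAddCommGroup X] [InnerProductSpace ℝ X]
    (f : X → EReal) (y : X) : EReal := ⨆ x : X, ((⟪y, x⟫_ℝ : ℝ) : EReal) - f x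

/-- `f` solves the equation `f(x) = τ f*(E x + c) + ⟨w, x⟩ + β`. -/
def IsSolution {X : Type*} [NormedAddCommGroup X] [InnerProductSpace ℝ X] (τ : ℝ) (c w : X)
    (β : ℝ) (E : X ≃L[ℝ] X) (f : X → EReal) : Prop :=
  ∀ x : X, f x = (τ : EReal) * conj f (E x + c) + ((⟪w, x⟫_ℝ : ℝ) : EReal) + (β : EReal)

/-- `E` is positive definite. -/
def PosDef {X : Type*} [NormedAddCommGroup X] [InnerProductSpace ℝ X] (E : X ≃L[ℝ] X) : Prop :=
  (∀ x y : X, ⟪E x, y⟫_ℝ = ⟪x, E y⟫_ℝ) ∧ ∀ x : X, x ≠ 0 → 0 < ⟪E x, x⟫_ℝ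

/-- The quadratic solution. -/
noncomputable def f₀ {X : Type*} [NormedAddCommGroup X] [InnerProductSpace ℝ X] (τ : ℝ) (c w : X)
    (β : ℝ) (E : X ≃L[ℝ] X) (x : X) : EReal :=
  ((1 / 2 * ⟪(√τ) • E x, x⟫_ℝ + ⟪(1 + √τ)⁻¹ • (w + (√τ) • c), x⟫_ℝ
    + (β * (1 + √τ) ^ 2 + 1 / 2 * √τ * ⟪c - w, E.symm (c - w)⟫_ℝ) / ((1 + √τ) ^ 2 * (τ + 1)) :
      ℝ) : EReal)

/-! ### One variable -/

/-- `ψ` is the conjugate of `φ`, and the supremum is attained. -/
def IsConj (φ ψ : ℝ → ℝ) : Prop :=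
  (∀ x y, x * y ≤ φ x + ψ y) ∧ ∀ y, ∃ x, x * y = φ x + ψ y

/-- Not a polynomial of degree two. -/
def NonQuad (φ : ℝ → ℝ) : Prop := ¬ ∃ A B C : ℝ, ∀ t, φ t = A * t ^ 2 + B * t + C

/-- The piecewise affine function with slope `ρ ^ k` on `[ρ ^ k, ρ ^ (k + 1)]`. -/
noncomputable def Φ (ρ s : ℝ) : ℝ := ⨆ j : ℤ, (ρ ^ j * |s| - ρ / (1 + ρ) * (ρ ^ j) ^ 2)

section base

variable {ρ : ℝ} (hρ : 1 < ρ)

include hρ

lemma bdd (s : ℝ) : BddAbove (Set.range fun j : ℤ => ρ ^ j * |s| - ρ / (1 + ρ) * (ρ ^ j) ^ 2) := by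
  have hc : 0 < ρ / (1 + ρ) := by positivity
  refine ⟨|s| ^ 2 / (4 * (ρ / (1 + ρ))), ?_⟩
  rintro _ ⟨j, rfl⟩
  beta_reduce
  rw [le_div_iff₀ (by positivity)]
  nlinarith [sq_nonneg (|s| - 2 * (ρ / (1 + ρ)) * ρ ^ j)]

lemma le_Φ (j : ℤ) (s : ℝ) : ρ ^ j * |s| - ρ / (1 + ρ) * (ρ ^ j) ^ 2 ≤ Φ ρ s :=
  le_ciSup (bdd hρ s) j

lemma key (j k : ℤ) :
    ρ ^ j * ρ ^ k ≤ ρ / (1 + ρ) * (ρ ^ j) ^ 2 + (ρ ^ k) ^ 2 / (1 + ρ) := by
  have h0 : 0 < ρ := by linarith
  have h : 0 ≤ (ρ ^ j - ρ ^ k) * (ρ * ρ ^ j - ρ ^ k) := by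
    rcases le_or_gt k j with h | h
    · have h1 : ρ ^ k ≤ ρ ^ j := zpow_le_zpow_right₀ hρ.le h
      have h2 : ρ ^ j ≤ ρ * ρ ^ j := by
        have : 0 < ρ ^ j := zpow_pos h0 j
        nlinarith
      exact mul_nonneg (by linarith) (by linarith)
    · have h1 : ρ ^ j ≤ ρ ^ k := zpow_le_zpow_right₀ hρ.le h.le
      have h2 : ρ * ρ ^ j ≤ ρ ^ k := by
        rw [← zpow_one_add₀ h0.ne']
        exact zpow_le_zpow_right₀ hρ.le (by omega)
      exact mul_nonneg_of_nonpos_of_nonpos (by linarith) (by linarith)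
  have h1 : 0 < 1 + ρ := by linarith
  rw [div_mul_eq_mul_div, ← add_div, le_div_iff₀ h1]
  nlinarith

/-- the value of `Φ` on `[ρ ^ k, ρ ^ (k + 1)]`. -/
lemma Φ_eq (k : ℤ) {s : ℝ} (h1 : ρ ^ k ≤ |s|) (h2 : |s| ≤ ρ * ρ ^ k) :
    Φ ρ s = ρ ^ k * |s| - ρ / (1 + ρ) * (ρ ^ k) ^ 2 := by
  have h0 : 0 < ρ := by linarith
  have hk : 0 < ρ ^ k := zpow_pos h0 k
  refine le_antisymm (ciSup_le fun j => ?_) (le_Φ hρ k s)
  have ha := key hρ j k
  have hb := key hρ j (k + 1)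
  rw [zpow_add_one₀ h0.ne'] at hb
  set a := ρ ^ j
  set b := ρ ^ k
  set x := |s|
  have h3 : 0 < 1 + ρ := by linarith
  have h4 : ρ / (1 + ρ) = 1 - 1 / (1 + ρ) := by field_simp; ring
  -- affine interpolation
  have e : (a * x - ρ / (1 + ρ) * a ^ 2) * ((ρ - 1) * b)
      = (a * b - ρ / (1 + ρ) * a ^ 2) * (ρ * b - x)
        + (a * (b * ρ) - ρ / (1 + ρ) * a ^ 2) * (x - b) := by ring
  have e2 : (b * x - ρ / (1 + ρ) * b ^ 2) * ((ρ - 1) * b)
      = (b ^ 2 / (1 + ρ)) * (ρ * b - x) + ((b * ρ) ^ 2 / (1 + ρ)) * (x - b) := by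
    field_simp
    ring
  have h5 : (a * x - ρ / (1 + ρ) * a ^ 2) * ((ρ - 1) * b)
      ≤ (b * x - ρ / (1 + ρ) * b ^ 2) * ((ρ - 1) * b) := by
    rw [e, e2]
    exact add_le_add (mul_le_mul_of_nonneg_right (by linarith) (by linarith))
      (mul_le_mul_of_nonneg_right (by linarith) (by linarith))
  have h6 : 0 < (ρ - 1) * b := mul_pos (by linarith) hk
  exact le_of_mul_le_mul_right h5 h6

lemma exists_k {s : ℝ} (hs : s ≠ 0) : ∃ k : ℤ, ρ ^ k ≤ |s| ∧ |s| ≤ ρ * ρ ^ k := by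
  obtain ⟨k, hk⟩ := exists_mem_Ico_zpow (abs_pos.mpr hs) hρ
  refine ⟨k, hk.1, ?_⟩
  have := hk.2
  rw [zpow_add_one₀ (by linarith)] at this
  linarith

lemma Φ_zero : Φ ρ 0 = 0 := by
  have h0 : 0 < ρ := by linarith
  have hc : 0 < ρ / (1 + ρ) := by positivity
  apply le_antisymm
  · refine ciSup_le fun j => ?_
    rw [abs_zero, mul_zero]
    have := mul_nonneg hc.le (sq_nonneg (ρ ^ j))
    linarith
  · refine le_of_forall_pos_le_add fun ε hε => ?_
    obtain ⟨n, hn⟩ := exists_pow_lt_of_lt_one hε (inv_lt_one_of_one_lt₀ hρ)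
    have h1 := le_Φ hρ (-(n : ℤ)) 0
    rw [abs_zero, mul_zero, zpow_neg, zpow_natCast, ← inv_pow] at h1
    have h2 : (ρ⁻¹) ^ n ≤ 1 := pow_le_one₀ (inv_nonneg.mpr h0.le) (inv_le_one_of_one_le₀ hρ.le)
    have h3 : 0 ≤ (ρ⁻¹) ^ n := by positivity
    have h4 : ρ / (1 + ρ) ≤ 1 := by
      rw [div_le_one (by linarith)]; linarith
    nlinarith

lemma Φ_nonneg (s : ℝ) : 0 ≤ Φ ρ s := by
  by_cases hs : s = 0
  · rw [hs, Φ_zero hρ]
  · obtain ⟨k, h1, -⟩ := exists_k hρ hs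
    have h0 : 0 < ρ := by linarith
    have hk : 0 < ρ ^ k := zpow_pos h0 k
    have h4 : ρ / (1 + ρ) ≤ 1 := by
      rw [div_le_one (by linarith)]; linarith
    have := le_Φ hρ k s
    nlinarith [mul_nonneg (sub_nonneg.mpr h4) (sq_nonneg (ρ ^ k)),
      mul_le_mul_of_nonneg_left h1 hk.le]

/-- Young's inequality. -/
lemma young (x y : ℝ) : x * y ≤ Φ ρ x + ρ * Φ ρ y := by
  have h0 : 0 < ρ := by linarith
  by_cases hy : y = 0
  · rw [hy, mul_zero, Φ_zero hρ, mul_zero, add_zero]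
    exact Φ_nonneg hρ x
  · obtain ⟨k, h1, h2⟩ := exists_k hρ hy
    have hk : 0 < ρ ^ k := zpow_pos h0 k
    rw [Φ_eq hρ k h1 h2]
    have ha := le_Φ hρ k x
    have hb := le_Φ hρ (k + 1) x
    rw [zpow_add_one₀ h0.ne'] at hb
    have hxy : x * y ≤ |x| * |y| := by
      rw [← abs_mul]; exact le_abs_self _
    refine hxy.trans ?_
    set a := ρ ^ k
    set s := |x|
    set t := |y|
    have h3 : 0 < (ρ - 1) * a := mul_pos (by linarith) hk
    have e : (s * t - ρ * (a * t - ρ / (1 + ρ) * a ^ 2)) * ((ρ - 1) * a)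
      = (a * s - ρ / (1 + ρ) * a ^ 2) * (ρ * a - t)
        + (a * ρ * s - ρ / (1 + ρ) * (a * ρ) ^ 2) * (t - a) := by
      field_simp
      ring
    have h5 : (s * t - ρ * (a * t - ρ / (1 + ρ) * a ^ 2)) * ((ρ - 1) * a)
        ≤ Φ ρ x * ((ρ - 1) * a) := by
      have e3 : Φ ρ x * ((ρ - 1) * a) = Φ ρ x * (ρ * a - t) + Φ ρ x * (t - a) := by ring
      rw [e, e3]
      exact add_le_add (mul_le_mul_of_nonneg_right ha (by linarith))
        (mul_le_mul_of_nonneg_right hb (by linarith))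
    have h6 := le_of_mul_le_mul_right h5 h3
    linarith


lemma Φ_neg (s : ℝ) : Φ ρ (-s) = Φ ρ s := by
  unfold Φ
  simp only [abs_neg]

/-- `ρ Φ` is the conjugate of `Φ`. -/
lemma conj1 : IsConj (Φ ρ) (fun y => ρ * Φ ρ y) := by
  have h0 : 0 < ρ := by linarith
  refine ⟨young hρ, fun y => ?_⟩
  -- the positive case
  have pos : ∀ y : ℝ, 0 < y → ∃ x, x * y = Φ ρ x + ρ * Φ ρ y := by
    intro y hy
    obtain ⟨k, h1, h2⟩ := exists_k hρ hy.ne'
    have hk : 0 < ρ ^ k := zpow_pos h0 k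
    have e1 := Φ_eq hρ k h1 h2
    have hx : |ρ * ρ ^ k| = ρ * ρ ^ k := abs_of_pos (by positivity)
    have e2 := Φ_eq hρ k (s := ρ * ρ ^ k) (by rw [hx]; nlinarith) (by rw [hx])
    refine ⟨ρ * ρ ^ k, ?_⟩
    rw [e1, e2, hx, abs_of_pos hy]
    field_simp
    ring
  rcases lt_trichotomy y 0 with hy | hy | hy
  · obtain ⟨x, hx⟩ := pos (-y) (by linarith)
    refine ⟨-x, ?_⟩
    beta_reduce
    rw [Φ_neg hρ] at hx ⊢
    linarith
  · refine ⟨0, ?_⟩
    beta_reduce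
    rw [hy, Φ_zero hρ]
    ring
  · exact pos y hy

/-- `Φ` is the conjugate of `ρ Φ`. -/
lemma conj2 : IsConj (fun x => ρ * Φ ρ x) (Φ ρ) := by
  have h0 : 0 < ρ := by linarith
  refine ⟨fun x y => ?_, fun y => ?_⟩
  · have := young hρ y x
    beta_reduce
    linarith [mul_comm x y]
  have pos : ∀ y : ℝ, 0 < y → ∃ x, x * y = ρ * Φ ρ x + Φ ρ y := by
    intro y hy
    obtain ⟨k, h1, h2⟩ := exists_k hρ hy.ne'
    have hk : 0 < ρ ^ k := zpow_pos h0 k
    have e1 := Φ_eq hρ k h1 h2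
    have hx : |ρ ^ k| = ρ ^ k := abs_of_pos hk
    have e2 := Φ_eq hρ k (s := ρ ^ k) (by rw [hx]) (by rw [hx]; nlinarith)
    refine ⟨ρ ^ k, ?_⟩
    rw [e1, e2, hx, abs_of_pos hy]
    field_simp
    ring
  rcases lt_trichotomy y 0 with hy | hy | hy
  · obtain ⟨x, hx⟩ := pos (-y) (by linarith)
    refine ⟨-x, ?_⟩
    beta_reduce
    rw [Φ_neg hρ] at hx ⊢
    linarith
  · refine ⟨0, ?_⟩
    beta_reduce
    rw [hy, Φ_zero hρ]
    ring
  · exact pos y hy

lemma nonquad1 : NonQuad (Φ ρ) := by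
  rintro ⟨A, B, C, h⟩
  have h0 : 0 < ρ := by linarith
  have hd : 0 < 1 + ρ := by linarith
  -- values at 1, (1 + ρ) / 2, ρ
  have v : ∀ s : ℝ, 1 ≤ s → s ≤ ρ → Φ ρ s = s - ρ / (1 + ρ) := by
    intro s h1 h2
    have hs : |s| = s := abs_of_nonneg (by linarith)
    have := Φ_eq hρ 0 (s := s) (by rw [hs, zpow_zero]; exact h1)
      (by rw [hs, zpow_zero, mul_one]; exact h2)
    rw [this, hs, zpow_zero]
    ring
  have v2 : Φ ρ (ρ * ρ) = ρ * (ρ * ρ) - ρ / (1 + ρ) * ρ ^ 2 := by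
    have hs : |ρ * ρ| = ρ * ρ := abs_of_nonneg (by positivity)
    have := Φ_eq hρ 1 (s := ρ * ρ) (by rw [hs, zpow_one]; nlinarith) (by rw [hs, zpow_one])
    rw [this, hs, zpow_one]
  have e1 := v 1 le_rfl hρ.le
  have e2 := v ((1 + ρ) / 2) (by linarith) (by linarith)
  have e3 := v ρ hρ.le le_rfl
  rw [h] at e1 e2 e3 v2
  have hA : A = 0 := by
    have : A * ((ρ - 1) ^ 2) = 0 := by nlinarith
    rcases mul_eq_zero.mp this with h5 | h5
    · exact h5
    · exfalso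
      have : ρ - 1 = 0 := pow_eq_zero_iff (by norm_num) |>.mp h5
      linarith
  subst hA
  have hB : B = 1 := by
    have : (B - 1) * (ρ - 1) = 0 := by linarith
    rcases mul_eq_zero.mp this with h5 | h5 <;> linarith
  subst hB
  have hC : C = - (ρ / (1 + ρ)) := by linarith
  rw [hC] at v2
  have h6 : ρ * ρ - ρ / (1 + ρ) = ρ * (ρ * ρ) - ρ / (1 + ρ) * ρ ^ 2 := by linarith
  field_simp at h6
  have h7 : ρ * (ρ - 1) ^ 2 = 0 := by nlinarith
  rcases mul_eq_zero.mp h7 with h8 | h8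
  · linarith
  · have : ρ - 1 = 0 := pow_eq_zero_iff (by norm_num) |>.mp h8
    linarith

end base

lemma NonQuad.affine {h : ℝ → ℝ} (hq : NonQuad h) {r : ℝ} (hr : r ≠ 0) (a p q : ℝ) :
    NonQuad fun s => r * h (s - a) + p * s + q := by
  rintro ⟨A, B, C, hh⟩
  apply hq
  refine ⟨A / r, (2 * A * a + B - p) / r, (A * a ^ 2 + B * a + C - p * a - q) / r, fun t => ?_⟩
  have := hh (t + a)
  beta_reduce at this
  rw [add_sub_cancel_right] at this
  field_simp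
  linarith

/-- Self-conjugate up to the factor `τ`. -/
lemma base_case {τ : ℝ} (hτ : 0 < τ) (h1 : τ ≠ 1) :
    ∃ h k : ℝ → ℝ, IsConj h k ∧ (∀ s, h s = τ * k s) ∧ NonQuad h := by
  rcases lt_or_gt_of_ne h1 with h | h
  · have hρ : 1 < τ⁻¹ := (one_lt_inv₀ hτ).mpr h
    refine ⟨Φ τ⁻¹, fun y => τ⁻¹ * Φ τ⁻¹ y, conj1 hρ, fun s => ?_, nonquad1 hρ⟩
    field_simp
  · refine ⟨fun x => τ * Φ τ x, Φ τ, conj2 h, fun s => rfl, ?_⟩
    have := (nonquad1 h).affine hτ.ne' 0 0 0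
    simpa using this

/-! ### The case `τ = 1` -/

/-- slope `⌊s⌋ + 1`. -/
noncomputable def N (s : ℝ) : ℝ := (⌊s⌋ + 1) * s - ⌊s⌋ * (⌊s⌋ + 1) / 2

lemma int_quad (k : ℤ) (a b : ℝ) (ha : 0 ≤ a) (ha1 : a < 1) (hb : 0 ≤ b) (hb1 : b < 1) :
    0 ≤ (k : ℝ) * (k + 1) / 2 + k * (a - b) + a * (1 - b) := by
  rcases le_or_gt 1 k with h | h
  · have h' : (1 : ℝ) ≤ k := by exact_mod_cast h
    nlinarith [mul_nonneg ha (sub_nonneg.mpr hb1.le)]
  · rcases eq_or_ne k 0 with h0 | h0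
    · subst h0
      push_cast
      nlinarith [mul_nonneg ha (sub_nonneg.mpr hb1.le)]
    · rcases eq_or_ne k (-1) with h2 | h2
      · subst h2
        push_cast
        nlinarith [mul_nonneg hb (sub_nonneg.mpr ha1.le)]
      · rcases eq_or_ne k (-2) with h3 | h3
        · subst h3
          push_cast
          nlinarith [mul_nonneg hb (sub_nonneg.mpr ha1.le)]
        · have h4 : k ≤ -3 := by omega
          have h' : (k : ℝ) ≤ -3 := by exact_mod_cast h4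
          nlinarith [mul_nonneg ha (sub_nonneg.mpr hb1.le)]

lemma conjN : IsConj N (fun y => N y - y) := by
  refine ⟨fun x y => ?_, fun y => ?_⟩
  · have h := int_quad (⌊x⌋ - ⌊y⌋) (Int.fract x) (Int.fract y) (Int.fract_nonneg x)
      (Int.fract_lt_one x) (Int.fract_nonneg y) (Int.fract_lt_one y)
    push_cast at h
    have e1 : Int.fract x = x - ⌊x⌋ := rfl
    have e2 : Int.fract y = y - ⌊y⌋ := rfl
    rw [e1, e2] at h
    unfold N
    nlinarith
  · refine ⟨⌊y⌋, ?_⟩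
    unfold N
    rw [Int.floor_intCast]
    ring

lemma nonquadN : NonQuad N := by
  rintro ⟨A, B, C, h⟩
  have v0 : N 0 = 0 := by unfold N; simp
  have v1 : N (1 / 2) = 1 / 2 := by
    have : ⌊(1 / 2 : ℝ)⌋ = 0 := by norm_num
    unfold N; rw [this]; norm_num
  have v2 : N 1 = 1 := by unfold N; simp
  have v3 : N 2 = 3 := by
    have : ⌊(2 : ℝ)⌋ = 2 := by norm_num
    unfold N; rw [this]; norm_num
  rw [h] at v0 v1 v2 v3
  linarith

/-- The one-variable equation. -/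
lemma one_dim {τ : ℝ} (hτ : 0 < τ) (δ β : ℝ) (hne : τ ≠ 1 ∨ δ ≠ 0) :
    ∃ φ ψ : ℝ → ℝ, IsConj φ ψ ∧ (∀ s, φ s = τ * ψ s + δ * s + β) ∧ NonQuad φ := by
  by_cases h1 : τ = 1
  · subst h1
    have hδ : δ ≠ 0 := by simpa using hne
    refine ⟨fun s => δ ^ 2 * N (s / δ) + β / 2, fun y => δ ^ 2 * (N (y / δ) - y / δ) - β / 2,
      ⟨fun x y => ?_, fun y => ?_⟩, fun s => ?_, ?_⟩
    · have h := conjN.1 (x / δ) (y / δ)
      have h2 : 0 < δ ^ 2 := by positivity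
      have e : x * y = δ ^ 2 * (x / δ * (y / δ)) := by field_simp
      rw [e]
      beta_reduce at h ⊢
      nlinarith
    · obtain ⟨x, hx⟩ := conjN.2 (y / δ)
      refine ⟨δ * x, ?_⟩
      have e : δ * x * y = δ ^ 2 * (x * (y / δ)) := by field_simp
      have e2 : δ * x / δ = x := by field_simp
      beta_reduce at hx ⊢
      rw [e, hx, e2]
      ring
    · beta_reduce
      field_simp
      ring
    · rintro ⟨A, B, C, h⟩
      apply nonquadN
      refine ⟨A, B / δ, (C - β / 2) / δ ^ 2, fun t => ?_⟩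
      have := h (δ * t)
      beta_reduce at this
      rw [mul_div_cancel_left₀ _ hδ] at this
      field_simp
      linarith
  · obtain ⟨h, k, hhk, he, hq⟩ := base_case hτ h1
    have h2 : 1 - τ ≠ 0 := fun h => h1 (by linarith)
    set a := δ / (1 - τ) with ha
    set γ := (β - τ * a ^ 2) / (1 + τ) with hγ
    have ea : τ * a + δ = a := by
      rw [ha]; field_simp; ring
    have eγ : -(τ * a ^ 2) - τ * γ + β = γ := by
      rw [hγ]; field_simp; ring
    refine ⟨fun s => h (s - a) + a * s + γ, fun y => k (y - a) + (y - a) * a - γ,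
      ⟨fun x y => ?_, fun y => ?_⟩, fun s => ?_, ?_⟩
    · have := hhk.1 (x - a) (y - a)
      beta_reduce
      nlinarith
    · obtain ⟨x, hx⟩ := hhk.2 (y - a)
      refine ⟨x + a, ?_⟩
      beta_reduce
      rw [add_sub_cancel_right]
      nlinarith
    · beta_reduce
      rw [he]
      linear_combination (-s) * ea - eγ
    · have := hq.affine one_ne_zero a a γ
      simpa using this

/-! ### The general case -/

section general

variable {X : Type*} [NormedAddCommGroup X] [InnerProductSpace ℝ X]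

/-- Positive definite forms: a vector of length one in a given direction. -/
lemma exists_unit [Nontrivial X] {E : X ≃L[ℝ] X} (hE : PosDef E) (d : X) :
    ∃ (e : X) (δ : ℝ), ⟪E e, e⟫_ℝ = 1 ∧ d = δ • e ∧ (d ≠ 0 → δ ≠ 0) := by
  have unit : ∀ v : X, v ≠ 0 → ∃ r : ℝ, 0 < r ∧ ⟪E (r⁻¹ • v), r⁻¹ • v⟫_ℝ = 1 := by
    intro v hv
    have h := hE.2 v hv
    refine ⟨√⟪E v, v⟫_ℝ, Real.sqrt_pos.mpr h, ?_⟩
    rw [map_smul, inner_smul_left, inner_smul_right]
    simp only [conj_trivial]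
    have h2 := Real.mul_self_sqrt h.le
    have h3 : √⟪E v, v⟫_ℝ ≠ 0 := (Real.sqrt_pos.mpr h).ne'
    field_simp
    rw [sq, h2]
  by_cases hd : d = 0
  · obtain ⟨v, hv⟩ := exists_ne (0 : X)
    obtain ⟨r, hr, h1⟩ := unit v hv
    exact ⟨r⁻¹ • v, 0, h1, by rw [hd, zero_smul], fun h => absurd hd h⟩
  · obtain ⟨r, hr, h1⟩ := unit d hd
    refine ⟨r⁻¹ • d, r, h1, ?_, fun _ => hr.ne'⟩
    rw [smul_smul, mul_inv_cancel₀ hr.ne', one_smul]

/-- a real-valued function with an attained real conjugate. -/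
lemma conj_of_attained {f g : X → ℝ} {y : X} (h1 : ∀ x, ⟪y, x⟫_ℝ - f x ≤ g y)
    (h2 : ∃ x, ⟪y, x⟫_ℝ - f x = g y) : conj (fun x => ((f x : ℝ) : EReal)) y = (g y : ℝ) := by
  unfold conj
  apply le_antisymm
  · refine iSup_le fun x => ?_
    rw [← EReal.coe_sub]
    exact EReal.coe_le_coe_iff.mpr (h1 x)
  · obtain ⟨x, hx⟩ := h2
    refine le_iSup_of_le x ?_
    rw [← EReal.coe_sub, hx]

end general

/-- **Uniqueness fails for all parameters but the known ones.** Let `X ≠ 0` be a real Hilbert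
space, `τ > 0`, `c, w ∈ X`, `β ∈ ℝ`, let `E` be positive definite and invertible, and suppose that
`τ ≠ 1` or `c ≠ w`. Then the equation `f(x) = τ f*(E x + c) + ⟨w, x⟩ + β` has a solution which is
real-valued, and different from the quadratic solution `f₀`. (If `τ = 1` and `c = w` then `f₀` is
known to be the only solution.) -/
theorem result (X : Type*) [NormedAddCommGroup X] [InnerProductSpace ℝ X] [CompleteSpace X]
    [Nontrivial X] (τ : ℝ) (hτ : 0 < τ) (c w : X) (β : ℝ) (E : X ≃L[ℝ] X) (hE : PosDef E)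
    (hne : τ ≠ 1 ∨ c ≠ w) :
    ∃ f : X → EReal, IsSolution τ c w β E f ∧ (∀ x, f x ≠ ⊥ ∧ f x ≠ ⊤) ∧ f ≠ f₀ τ c w β E := by
  obtain ⟨e, δ, he1, hd, hδ⟩ := exists_unit hE (E.symm (w - c))
  have hne' : τ ≠ 1 ∨ δ ≠ 0 := by
    rcases hne with h | h
    · exact Or.inl h
    · refine Or.inr (hδ fun h0 => h ?_)
      have := congrArg E h0
      rw [ContinuousLinearEquiv.apply_symm_apply, map_zero] at this
      exact (sub_eq_zero.mp this).symm
  obtain ⟨φ, ψ, ⟨hy, hatt⟩, heq, hq⟩ := one_dim hτ δ β hne'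
  -- the coordinate and the quadratic form
  let a : X → ℝ := fun x => ⟪E e, x⟫_ℝ
  let Q : X → ℝ := fun x => ⟪E x, x⟫_ℝ
  have hsy : ∀ x y : X, ⟪E x, y⟫_ℝ = ⟪E y, x⟫_ℝ := fun x y => by
    rw [hE.1 x y, real_inner_comm]
  have hst : 0 < √τ := Real.sqrt_pos.mpr hτ
  have hss : √τ * √τ = τ := Real.mul_self_sqrt hτ.le
  have hQ0 : ∀ x, 0 ≤ Q x := fun x => by
    by_cases h : x = 0
    · simp [Q, h]
    · exact (hE.2 x h).le
  have ha_add : ∀ x y, a (x + y) = a x + a y := fun x y => inner_add_right _ _ _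
  have ha_smul : ∀ (r : ℝ) x, a (r • x) = r * a x := fun r x => by
    simp only [a, inner_smul_right]
  have hae : a e = 1 := he1
  -- orthogonal part
  let P : X → X := fun x => x - a x • e
  have hPa : ∀ x, a (P x) = 0 := fun x => by
    have : a (P x) = a x - a x * a e := by
      simp only [P, a, inner_sub_right, inner_smul_right]
    rw [this, hae]; ring
  have hEP : ∀ x y, ⟪E x, y⟫_ℝ = a x * a y + ⟪E (P x), P y⟫_ℝ := by
    intro x y
    have h1 : ⟪E (P x), P y⟫_ℝ = ⟪E x, y⟫_ℝ - a y * ⟪E x, e⟫_ℝ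
        - a x * ⟪E e, y⟫_ℝ + a x * a y * ⟪E e, e⟫_ℝ := by
      simp only [P, map_sub, map_smul, inner_sub_left, inner_sub_right, inner_smul_left,
        inner_smul_right, conj_trivial]
      ring
    have h2 : ⟪E x, e⟫_ℝ = a x := hsy x e
    rw [h1, h2, he1]
    change _ = a x * a y + (⟪E x, y⟫_ℝ - a y * a x - a x * a y + a x * a y * 1)
    ring
  have hQP : ∀ x, Q (P x) = Q x - a x ^ 2 := fun x => by
    have := hEP x x
    simp only [Q]
    linarith [sq (a x)]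
  -- the solution
  let F : X → ℝ := fun x => φ (a x) + √τ / 2 * Q (P x) + ⟪c, x⟫_ℝ
  let G : X → ℝ := fun y => ψ (a (E.symm (y - c))) + 1 / (2 * √τ) * Q (P (E.symm (y - c)))
  have hcs : ∀ x y : X, ⟪E x, y⟫_ℝ ≤ √τ / 2 * Q y + 1 / (2 * √τ) * Q x := by
    intro x y
    have h := hQ0 ((√τ) • y - x)
    have e1 : Q ((√τ) • y - x) = √τ * √τ * Q y - 2 * √τ * ⟪E x, y⟫_ℝ + Q x := by
      simp only [Q, map_sub, map_smul, inner_sub_left, inner_sub_right, inner_smul_left,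
        inner_smul_right, conj_trivial]
      rw [hsy y x]
      ring
    rw [e1] at h
    have h3 : ⟪E x, y⟫_ℝ * (2 * √τ) ≤ (√τ / 2 * Q y + 1 / (2 * √τ) * Q x) * (2 * √τ) := by
      have : (√τ / 2 * Q y + 1 / (2 * √τ) * Q x) * (2 * √τ) = √τ * √τ * Q y + Q x := by
        field_simp
      rw [this]
      linarith
    exact le_of_mul_le_mul_right h3 (by positivity)
  have hconj : ∀ y, conj (fun x => ((F x : ℝ) : EReal)) y = (G y : ℝ) := by
    intro y
    set z := E.symm (y - c) with hz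
    have hEz : ∀ x, ⟪y, x⟫_ℝ = ⟪E z, x⟫_ℝ + ⟪c, x⟫_ℝ := by
      intro x
      rw [hz, ContinuousLinearEquiv.apply_symm_apply, inner_sub_left]
      ring
    apply conj_of_attained
    · intro x
      have h1 := hy (a x) (a z)
      have h2 := hcs (P z) (P x)
      have h3 := hEP z x
      have h4 := hEz x
      simp only [F, G, ← hz]
      nlinarith
    · obtain ⟨t, ht⟩ := hatt (a z)
      refine ⟨t • e + (√τ)⁻¹ • P z, ?_⟩
      have b1 : a (t • e + (√τ)⁻¹ • P z) = t := by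
        rw [ha_add, ha_smul, ha_smul, hPa, hae]; ring
      have b2 : P (t • e + (√τ)⁻¹ • P z) = (√τ)⁻¹ • P z := by
        simp only [P] at b1 ⊢
        rw [b1]
        abel
      have b3 : ⟪E (P z), (√τ)⁻¹ • P z⟫_ℝ = (√τ)⁻¹ * Q (P z) := by
        rw [inner_smul_right]
      have b4 : Q ((√τ)⁻¹ • P z) = (√τ)⁻¹ * ((√τ)⁻¹ * Q (P z)) := by
        simp only [Q, map_smul, inner_smul_left, inner_smul_right, conj_trivial]
      have h4 := hEz (t • e + (√τ)⁻¹ • P z)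
      have h3 := hEP z (t • e + (√τ)⁻¹ • P z)
      rw [b1, b2, b3] at h3
      simp only [F, G, ← hz]
      rw [b1, b2, b4, h4, h3]
      have hs0 : √τ ≠ 0 := hst.ne'
      have h5 : √τ / 2 * ((√τ)⁻¹ * ((√τ)⁻¹ * Q (P z))) = 1 / (2 * √τ) * Q (P z) := by
        field_simp
      have h6 : (√τ)⁻¹ * Q (P z) = 2 * (1 / (2 * √τ) * Q (P z)) := by
        field_simp
      rw [h5, h6]
      linarith [mul_comm t (a z)]
  refine ⟨fun x => ((F x : ℝ) : EReal), ?_, fun x => ⟨EReal.coe_ne_bot _, EReal.coe_ne_top _⟩,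
    ?_⟩
  · intro x
    beta_reduce
    rw [hconj, ← EReal.coe_mul, ← EReal.coe_add, ← EReal.coe_add]
    congr 1
    have e1 : E.symm (E x + c - c) = x := by
      rw [add_sub_cancel_right, ContinuousLinearEquiv.symm_apply_apply]
    have e2 : ⟪w, x⟫_ℝ = δ * a x + ⟪c, x⟫_ℝ := by
      have : w - c = E (δ • e) := by
        rw [← hd, ContinuousLinearEquiv.apply_symm_apply]
      have h2 : ⟪w - c, x⟫_ℝ = δ * a x := by
        rw [this, map_smul, inner_smul_left, conj_trivial]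
      rw [inner_sub_left] at h2
      linarith
    simp only [F, G]
    rw [e1, e2, heq]
    have h5 : τ * (1 / (2 * √τ) * Q (P x)) = √τ / 2 * Q (P x) := by
      have : τ * (1 / (2 * √τ)) = √τ / 2 := by
        rw [mul_one_div, div_eq_div_iff (by positivity) (by norm_num)]
        linear_combination (-2) * hss
      rw [← mul_assoc, this]
    rw [mul_add, h5]
    ring
  · intro hcon
    apply hq
    refine ⟨1 / 2 * √τ, ⟪(1 + √τ)⁻¹ • (w + (√τ) • c), e⟫_ℝ - ⟪c, e⟫_ℝ,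
      (β * (1 + √τ) ^ 2 + 1 / 2 * √τ * ⟪c - w, E.symm (c - w)⟫_ℝ) / ((1 + √τ) ^ 2 * (τ + 1)),
      fun t => ?_⟩
    have h1 := congrFun hcon (t • e)
    beta_reduce at h1
    unfold f₀ at h1
    rw [EReal.coe_eq_coe_iff] at h1
    have b1 : a (t • e) = t := by rw [ha_smul, hae, mul_one]
    have b2 : P (t • e) = 0 := by
      simp only [P]
      rw [b1, sub_self]
    have b3 : Q 0 = 0 := by simp [Q]
    have b4 : ⟪(√τ) • E (t • e), t • e⟫_ℝ = √τ * t ^ 2 := by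
      simp only [map_smul, inner_smul_left, inner_smul_right, conj_trivial]
      rw [he1]
      ring
    simp only [F] at h1
    rw [b1, b2, b3, b4] at h1
    simp only [inner_smul_right] at h1 ⊢
    linarith

end Pool.Agent.Results.MP_02ff8d_an.NonUniqueness
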